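import Pool.Agent.Helper1_RL.Stmts

/-! Module U2R of squad RLA: sign of the Ricci tensor of the U(2) metrics. -/

set_option maxSynthPendingDepth 3

noncomputable section

open scoped ContDiff Topology ENNReal RealInnerProductSpace
open Set Metric

namespace Pool.Agent.RLim.H76

open Pool.Agent.RLim Pool.Agent.RF

theorem u2r (_hM : U2MetricStmt) (hB : U2BaseStmt) (hE : U2EquivStmt) : U2RicStmt := by
  intro F B hUk R hR hA hBB hC X hX V
  have hX0 : X ≠ 0 := by
    rintro rfl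
    rw [norm_zero] at hX
    exact absurd hX hR.ne
  obtain ⟨A, hAX, -, hric⟩ := hE F B hUk X hX0
  have h1 := hric (A.symm V) (A.symm V)
  rw [LinearIsometryEquiv.apply_symm_apply, hX] at h1
  rw [h1, hB F B hUk R hR (A.symm V)]
  have hF : 0 < F R := hUk.F_pos R hR
  have e1 : 0 ≤ ucA F B R * ((A.symm V) 0 ^ 2 / F R) :=
    mul_nonneg hA (div_nonneg (sq_nonneg _) hF.le)
  have e2 : 0 ≤ ucB F B R * (A.symm V) 1 ^ 2 := mul_nonneg hBB (sq_nonneg _)
  have e3 : 0 ≤ ucC F B R * (B R ^ 2 / R ^ 2 * ((A.symm V) 2 ^ 2 + (A.symm V) 3 ^ 2)) :=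
    mul_nonneg hC (mul_nonneg (div_nonneg (sq_nonneg _) (sq_nonneg _))
      (add_nonneg (sq_nonneg _) (sq_nonneg _)))
  exact add_nonneg (add_nonneg e1 e2) e3

end Pool.Agent.RLim.H76
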